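import Mathlib

/-! Polynomials with few terms are not divisible by large powers of `X - 1`. -/

set_option autoImplicit false

namespace Pool.Agent.R36.PS

open Polynomial

variable {K : Type*} [Field K]

/-- A polynomial with at most `N` terms that is divisible by `(X - 1) ^ N` is zero, if the
characteristic is zero or large. -/
theorem sparse_zero {D : ℕ} (hK : ∀ q : ℕ, 0 < q → q ≤ D → (q : K) ≠ 0) :
    ∀ (N : ℕ) (φ : K[X]), φ.natDegree ≤ D → φ.support.card ≤ N → (X - 1) ^ N ∣ φ → φ = 0 := by
  intro N
  induction N with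
  | zero =>
    intro φ _ h _
    exact Polynomial.support_eq_empty.1 (Finset.card_eq_zero.1 (Nat.le_zero.1 h))
  | succ N ih =>
    intro φ hD hc hdvd
    by_contra hφ
    obtain ⟨e, he⟩ := Polynomial.support_nonempty.2 hφ
    obtain ⟨ψ, hψ⟩ : ∃ ψ : K[X], ψ = X * derivative φ - C (e : K) * φ := ⟨_, rfl⟩
    have hcoef : ∀ k, ψ.coeff k = ((k : K) - e) * φ.coeff k := by
      intro k
      rw [hψ, coeff_sub, coeff_C_mul]
      rcases k with _ | k
      · simp
      · rw [coeff_X_mul, coeff_derivative]
        push_cast
        ring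
    have hψ0 : ψ = 0 := by
      apply ih
      · refine natDegree_le_iff_coeff_eq_zero.2 fun k hk => ?_
        rw [hcoef, natDegree_le_iff_coeff_eq_zero.1 hD k hk, mul_zero]
      · have h0 : ψ.support ⊆ φ.support.erase e := by
          intro k hk
          rw [mem_support_iff, hcoef] at hk
          rw [Finset.mem_erase, mem_support_iff]
          refine ⟨?_, right_ne_zero_of_mul hk⟩
          rintro rfl
          exact hk (by simp)
        have h1 := Finset.card_le_card h0
        rw [Finset.card_erase_of_mem he] at h1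
        omega
      · have h1 : (X - 1 : K[X]) ^ N ∣ derivative φ := by
          obtain ⟨g, rfl⟩ := hdvd
          rw [derivative_mul, derivative_pow]
          refine dvd_add ?_ ?_
          · rw [Nat.add_sub_cancel]
            exact Dvd.dvd.mul_right (Dvd.dvd.mul_right (Dvd.dvd.mul_left dvd_rfl _) _) _
          · exact Dvd.dvd.mul_right (pow_dvd_pow _ (Nat.le_succ N)) _
        rw [hψ]
        exact dvd_sub (Dvd.dvd.mul_left h1 _)
          (Dvd.dvd.mul_left ((pow_dvd_pow _ (Nat.le_succ N)).trans hdvd) _)
    have hall : ∀ k, k ≠ e → φ.coeff k = 0 := by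
      intro k hk
      by_contra hne
      have h1 := hcoef k
      rw [hψ0, coeff_zero] at h1
      have h2 : (k : K) - e = 0 := by
        rcases mul_eq_zero.1 h1.symm with h | h
        · exact h
        · exact absurd h hne
      have hkD : k ≤ D := (le_natDegree_of_ne_zero hne).trans hD
      have heD : e ≤ D := (le_natDegree_of_ne_zero (mem_support_iff.1 he)).trans hD
      rcases lt_or_gt_of_ne hk with h | h
      · refine hK (e - k) (by omega) (by omega) ?_
        rw [Nat.cast_sub h.le]
        linear_combination -h2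
      · refine hK (k - e) (by omega) (by omega) ?_
        rw [Nat.cast_sub h.le]
        linear_combination h2
    have h1 : φ.eval 1 = 0 := by
      obtain ⟨g, rfl⟩ := hdvd
      simp
    have h2 : φ = monomial e (φ.coeff e) := by
      ext k
      rw [coeff_monomial]
      split_ifs with h
      · rw [h]
      · exact hall k (Ne.symm h)
    rw [h2, eval_monomial, one_pow, mul_one] at h1
    exact (mem_support_iff.1 he) h1

/-- The polynomials with exponents in `E` that are divisible by `(X - 1) ^ N`. -/
def spW (K : Type*) [Field K] (E : Finset ℕ) (N : ℕ) : Submodule K K[X] where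
  carrier := {φ | (∀ k, k ∉ E → φ.coeff k = 0) ∧ (X - 1) ^ N ∣ φ}
  zero_mem' := ⟨fun _ _ => coeff_zero _, dvd_zero _⟩
  add_mem' := fun {a b} ha hb =>
    ⟨fun k hk => by rw [coeff_add, ha.1 k hk, hb.1 k hk, add_zero], dvd_add ha.2 hb.2⟩
  smul_mem' := fun c a ha =>
    ⟨fun k hk => by rw [coeff_smul, ha.1 k hk, smul_zero],
      by rw [smul_eq_C_mul]; exact Dvd.dvd.mul_left ha.2 _⟩

instance fin_spW (E : Finset ℕ) (N : ℕ) : Module.Finite K (spW K E N) := by
  classical
  let L : K[X] →ₗ[K] (↥E → K) := LinearMap.pi fun k => Polynomial.lcoeff K k.1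
  have hinj : Function.Injective (L.domRestrict (spW K E N)) := by
    rw [← LinearMap.ker_eq_bot, LinearMap.ker_eq_bot']
    rintro ⟨φ, h1, h2⟩ h3
    apply Subtype.ext
    ext k
    by_cases hk : k ∈ E
    · exact congrFun h3 ⟨k, hk⟩
    · exact h1 k hk
  exact Module.Finite.of_injective _ hinj

theorem finrank_spW {D : ℕ} (hK : ∀ q : ℕ, 0 < q → q ≤ D → (q : K) ≠ 0) {E : Finset ℕ}
    (hE : ∀ e ∈ E, e ≤ D) (N : ℕ) : Module.finrank K (spW K E N) ≤ E.card - N := by
  classical
  obtain ⟨E', hE', hc⟩ := Finset.exists_subset_card_eq (s := E) (n := min N E.card)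
    (min_le_right _ _)
  let L : K[X] →ₗ[K] (↥(E \ E') → K) := LinearMap.pi fun k => Polynomial.lcoeff K k.1
  have hinj : Function.Injective (L.domRestrict (spW K E N)) := by
    rw [← LinearMap.ker_eq_bot, LinearMap.ker_eq_bot']
    rintro ⟨φ, h1, h2⟩ h3
    apply Subtype.ext
    refine sparse_zero hK N φ ?_ ?_ h2
    · refine natDegree_le_iff_coeff_eq_zero.2 fun k hk => h1 k fun hkE => ?_
      have := hE k hkE
      omega
    · have h4 : φ.support ⊆ E' := by
        intro k hk
        by_contra hk'
        have hkE : k ∈ E := by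
          by_contra h
          exact (mem_support_iff.1 hk) (h1 k h)
        have h5 := congrFun h3 ⟨k, Finset.mem_sdiff.2 ⟨hkE, hk'⟩⟩
        exact (mem_support_iff.1 hk) h5
      exact (Finset.card_le_card h4).trans (by rw [hc]; exact min_le_left _ _)
  have h := LinearMap.finrank_le_finrank_of_injective hinj
  rw [Module.finrank_fintype_fun_eq_card, Fintype.card_coe, Finset.card_sdiff_of_subset hE', hc] at h
  omega

end Pool.Agent.R36.PS
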