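import Pool.Agent.H932R2.Final
import Pool.Agent.R36.PS.Sparse

/-! Forms through the collision of `r` fat points along the curve `y = x ^ s`: restriction to the
curve. -/

set_option autoImplicit false

namespace Pool.Agent.R36.PS

open Polynomial Pool.Agent.H932R2

variable {K : Type*} [Field K]

/-- The polynomials of total degree at most `d`. -/
def Vd (K : Type*) [Field K] (d : ℕ) : Submodule K K[X][X] where
  carrier := {f | ∀ l i, d < i + l → (f.coeff l).coeff i = 0}
  zero_mem' := fun _ _ _ => by simp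
  add_mem' := fun {a b} ha hb l i h => by rw [coeff_add, coeff_add, ha l i h, hb l i h, add_zero]
  smul_mem' := fun c a ha l i h => by rw [coeff_smul, coeff_smul, ha l i h, smul_zero]

theorem mspan_eq (d : ℕ) : mspan K (Tset d) = Vd K d := by
  classical
  apply le_antisymm
  · refine Submodule.span_le.2 ?_
    rintro _ ⟨⟨a, b⟩, hab, rfl⟩ l i hli
    rw [coeff_mon, if_neg]
    intro h
    rw [Prod.mk.injEq] at h
    have h2 : a + b ≤ d := hab
    omega
  · intro f hf
    have h : f = ∑ p ∈ Tfin d, ((f.coeff p.2).coeff p.1) • mon K p := by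
      ext l i
      rw [finsetSum_coeff, finsetSum_coeff]
      simp only [coeff_smul, smul_eq_mul, coeff_mon]
      by_cases h : i + l ≤ d
      · rw [Finset.sum_eq_single (i, l)]
        · simp
        · intro p _ hp
          rw [if_neg hp, mul_zero]
        · intro hn
          exfalso
          apply hn
          have : ((i, l) : ℕ × ℕ) ∈ (↑(Tfin d) : Set (ℕ × ℕ)) := by
            rw [coe_Tfin]
            exact h
          exact_mod_cast this
      · rw [hf l i (by omega)]
        symm
        refine Finset.sum_eq_zero fun p hp => ?_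
        rw [if_neg, mul_zero]
        rintro rfl
        have : ((i, l) : ℕ × ℕ) ∈ (↑(Tfin d) : Set (ℕ × ℕ)) := by exact_mod_cast hp
        rw [coe_Tfin] at this
        exact h this
    rw [h]
    refine Submodule.sum_mem _ fun p hp => Submodule.smul_mem _ _ (Submodule.subset_span ⟨p, ?_, rfl⟩)
    rw [← coe_Tfin]
    exact_mod_cast hp

instance fin_Vd (d : ℕ) : Module.Finite K (Vd K d) := by
  rw [← mspan_eq, ← coe_Tfin]
  exact FiniteDimensional.span_of_finite K ((Tfin d).finite_toSet.image _)

theorem finrank_Vd (d : ℕ) : Module.finrank K (Vd K d) ≤ (d + 2).choose 2 := by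
  classical
  rw [← mspan_eq, ← coe_Tfin]
  have h1 : Module.finrank K (mspan K (↑(Tfin d) : Set (ℕ × ℕ))) ≤ ((Tfin d).image (mon K)).card := by
    have := finrank_span_finset_le_card (R := K) ((Tfin d).image (mon K))
    rw [Finset.coe_image] at this
    exact this
  refine h1.trans (Finset.card_image_le.trans ?_)
  have h4 := card_Tfin d
  have h5 : (d + 2).choose 2 * 2 = (d + 2) * (d + 1) := by
    rw [Nat.choose_two_right, Nat.div_mul_cancel (Nat.even_mul_pred_self _).two_dvd]
    rfl
  linarith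

/-- Restriction to the curve `y = x ^ s`. -/
noncomputable def res (K : Type*) [Field K] (s : ℕ) : K[X][X] →ₗ[K] K[X] where
  toFun f := f.eval (X ^ s)
  map_add' f g := eval_add
  map_smul' a f := by rw [eval_smul, RingHom.id_apply]

/-- Multiplication by the equation of the curve. -/
noncomputable def mulh (K : Type*) [Field K] (s : ℕ) : K[X][X] →ₗ[K] K[X][X] :=
  LinearMap.mulLeft K (X - C (X ^ s))

/-- The ideal of the collision at the point `(1, 1)` of the curve. -/
noncomputable def Jc (K : Type*) [Field K] (s r m : ℕ) : Ideal K[X][X] :=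
  cIdeal (fun _ : Fin r => (1 : K)) (X ^ s) m

theorem coeff_mulh (s : ℕ) (g : K[X][X]) (l i : ℕ) :
    (((X - C (X ^ s)) * g).coeff (l + 1)).coeff (i + s) =
      (g.coeff l).coeff (i + s) - (g.coeff (l + 1)).coeff i := by
  rw [sub_mul, coeff_sub, coeff_X_mul, coeff_C_mul, coeff_sub, coeff_X_pow_mul]

theorem coeff_mulh0 (s : ℕ) (g : K[X][X]) (i : ℕ) :
    (((X - C (X ^ s)) * g).coeff 0).coeff (i + s) = - (g.coeff 0).coeff i := by
  rw [sub_mul, coeff_sub, mul_coeff_zero, coeff_X_zero, zero_mul, coeff_C_mul, coeff_sub,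
    coeff_X_pow_mul, coeff_zero, zero_sub]

/-- the quotient by the equation of the curve has small degree -/
theorem quot_mem {s d : ℕ} (hs : 2 ≤ s) {g : K[X][X]} (h : (X - C (X ^ s)) * g ∈ Vd K (d + s)) :
    g ∈ Vd K d := by
  classical
  intro l i hli
  by_contra hne
  obtain ⟨P, hP⟩ : ∃ P : Finset (ℕ × ℕ), ∀ p : ℕ × ℕ, p ∈ P ↔ (g.coeff p.1).coeff p.2 ≠ 0 := by
    refine ⟨(g.support.biUnion fun l => ((g.coeff l).support.image fun i => (l, i))), ?_⟩
    rintro ⟨a, b⟩
    simp only [Finset.mem_biUnion, Finset.mem_image, mem_support_iff, Prod.mk.injEq]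
    constructor
    · rintro ⟨a', _, b', h2, rfl, rfl⟩
      exact h2
    · intro h2
      exact ⟨a, fun h3 => h2 (by rw [h3, coeff_zero]), b, h2, rfl, rfl⟩
  obtain ⟨⟨a, b⟩, hab, hmax⟩ := Finset.exists_max_image P (fun p => p.1 + p.2)
    ⟨(l, i), (hP (l, i)).2 hne⟩
  have h1 := hmax (l, i) ((hP (l, i)).2 hne)
  simp only at h1
  have h2 := (hP (a, b)).1 hab
  simp only at h2
  rcases a with _ | a
  · have h3 := h 0 (b + s) (by omega)
    rw [coeff_mulh0, neg_eq_zero] at h3
    exact h2 h3
  · have h3 := h (a + 1) (b + s) (by omega)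
    rw [coeff_mulh] at h3
    have h4 : (g.coeff a).coeff (b + s) = 0 := by
      by_contra h5
      have h6 := hmax (a, b + s) ((hP (a, b + s)).2 h5)
      simp only at h6
      omega
    rw [h4, zero_sub, neg_eq_zero] at h3
    exact h2 h3

theorem sh_h (s : ℕ) : sh (0 : K) (X ^ s) (X - C (X ^ s)) = X := by
  rw [map_sub, sh_X, sh_C]
  ring

theorem quot_mem_Jc {s r m : ℕ} {g : K[X][X]} (h : (X - C (X ^ s)) * g ∈ Jc K s r (m + 1)) :
    g ∈ Jc K s r m := by
  unfold Jc at h ⊢
  rw [mem_cIdeal_iff_sh] at h ⊢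
  intro l hl
  have h1 := h (l + 1) (by omega)
  rw [map_mul, sh_h, coeff_X_mul, show m + 1 - (l + 1) = m - l by omega] at h1
  exact h1

theorem res_dvd {s r m : ℕ} {f : K[X][X]} (h : f ∈ Jc K s r m) :
    (X - 1) ^ (r * m) ∣ f.eval (X ^ s) := by
  unfold Jc cIdeal at h
  rw [rootPoly_const] at h
  have h1 := Ideal.mem_map_of_mem (evalRingHom (X ^ s : K[X])) h
  rw [Ideal.map_pow, Ideal.map_span, Set.image_pair] at h1
  have e1 : evalRingHom (X ^ s : K[X]) (X - C (X ^ s)) = 0 := by simp
  have e2 : evalRingHom (X ^ s : K[X]) (C ((X - C 1) ^ r)) = (X - 1) ^ r := by simp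
  rw [e1, e2, Ideal.span_insert_zero, Ideal.span_singleton_pow, Ideal.mem_span_singleton,
    ← pow_mul] at h1
  exact h1

/-- The exponents of the restrictions to the curve of the polynomials of degree at most `d`. -/
def Ex (s d : ℕ) : Finset ℕ :=
  (Finset.range s).biUnion fun i => (Finset.range (d + 1 - i)).image fun l => i + s * l

theorem card_Ex (s d : ℕ) : (Ex s d).card ≤ ∑ i ∈ Finset.range s, (d + 1 - i) := by
  classical
  refine Finset.card_biUnion_le.trans (Finset.sum_le_sum fun i _ => ?_)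
  exact Finset.card_image_le.trans (by rw [Finset.card_range])

theorem le_of_mem_Ex {s d e : ℕ} (he : e ∈ Ex s d) : e ≤ s * d := by
  classical
  simp only [Ex, Finset.mem_biUnion, Finset.mem_range, Finset.mem_image] at he
  obtain ⟨i, hi, l, hl, rfl⟩ := he
  have h1 : i + l ≤ d := by omega
  calc i + s * l ≤ s * i + s * l := by
        have : 1 * i ≤ s * i := Nat.mul_le_mul_right i (by omega)
        omega
    _ = s * (i + l) := by ring
    _ ≤ s * d := Nat.mul_le_mul_left s h1

theorem mem_Ex {s d i l : ℕ} (hs : 0 < s) (h : i + l ≤ d) : i + s * l ∈ Ex s d := by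
  classical
  simp only [Ex, Finset.mem_biUnion, Finset.mem_range, Finset.mem_image]
  refine ⟨i % s, Nat.mod_lt _ hs, l + i / s, ?_, ?_⟩
  · have h1 := Nat.mod_add_div i s
    have h2 : 1 * (i / s) ≤ s * (i / s) := Nat.mul_le_mul_right _ hs
    omega
  · have h1 := Nat.mod_add_div i s
    rw [mul_add]
    omega

theorem res_mem {s r m d : ℕ} (hs : 0 < s) {f : K[X][X]} (hf : f ∈ Vd K d) (h : f ∈ Jc K s r m) :
    res K s f ∈ spW K (Ex s d) (r * m) := by
  refine ⟨fun k hk => ?_, res_dvd h⟩
  show (f.eval (X ^ s)).coeff k = 0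
  rw [eval_eq_sum_range, finsetSum_coeff]
  refine Finset.sum_eq_zero fun l _ => ?_
  rw [← pow_mul, coeff_mul_X_pow']
  split_ifs with h1
  · refine hf l _ ?_
    by_contra h2
    apply hk
    have h3 := mem_Ex (s := s) (d := d) (i := k - s * l) (l := l) hs (by omega)
    rwa [Nat.sub_add_cancel h1] at h3
  · rfl

/-- rank and nullity of a restriction -/
theorem rank_null {V W : Type*} [AddCommGroup V] [Module K V] [AddCommGroup W] [Module K W]
    (f : V →ₗ[K] W) (U : Submodule K V) [Module.Finite K U] (T : Submodule K W)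
    [Module.Finite K T] (Q : Submodule K V) [Module.Finite K Q] (hT : ∀ u ∈ U, f u ∈ T)
    (hQ : ∀ u ∈ U, f u = 0 → u ∈ Q) :
    Module.finrank K U ≤ Module.finrank K Q + Module.finrank K T := by
  have h1 := LinearMap.finrank_range_add_finrank_ker (f.domRestrict U)
  have h2 : Module.finrank K (LinearMap.range (f.domRestrict U)) ≤ Module.finrank K T := by
    refine Submodule.finrank_mono ?_
    rintro _ ⟨⟨u, hu⟩, rfl⟩
    exact hT u hu
  have h4 : Module.finrank K (LinearMap.ker (f.domRestrict U)) ≤ Module.finrank K Q := by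
    rw [← Submodule.finrank_map_subtype_eq]
    refine Submodule.finrank_mono ?_
    rintro _ ⟨⟨u, hu⟩, hu0, rfl⟩
    exact hQ u hu (LinearMap.mem_ker.1 hu0)
  omega

/-- one step of the induction -/
theorem step {s r m d : ℕ} (hs : 2 ≤ s)
    (hK : ∀ q : ℕ, 0 < q → q ≤ s * (d + s) → (q : K) ≠ 0) :
    Module.finrank K ↥(Vd K (d + s) ⊓ Submodule.restrictScalars K (Jc K s r (m + 1))) ≤
      Module.finrank K ↥(Vd K d ⊓ Submodule.restrictScalars K (Jc K s r m)) +
        (∑ i ∈ Finset.range s, (d + s + 1 - i) - r * (m + 1)) := by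
  obtain ⟨U, hU⟩ : ∃ U : Submodule K K[X][X],
    U = Vd K (d + s) ⊓ Submodule.restrictScalars K (Jc K s r (m + 1)) := ⟨_, rfl⟩
  obtain ⟨U', hU'⟩ : ∃ U' : Submodule K K[X][X],
    U' = Vd K d ⊓ Submodule.restrictScalars K (Jc K s r m) := ⟨_, rfl⟩
  rw [← hU, ← hU']
  have : Module.Finite K U := by
    rw [hU]
    exact Submodule.finiteDimensional_of_le inf_le_left
  have : Module.Finite K U' := by
    rw [hU']
    exact Submodule.finiteDimensional_of_le inf_le_left
  have h2 : Module.finrank K (spW K (Ex s (d + s)) (r * (m + 1))) ≤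
      ∑ i ∈ Finset.range s, (d + s + 1 - i) - r * (m + 1) :=
    (finrank_spW hK (fun e he => le_of_mem_Ex he) _).trans
      (Nat.sub_le_sub_right (card_Ex s (d + s)) _)
  have h3 := rank_null (res K s) U (spW K (Ex s (d + s)) (r * (m + 1))) (U'.map (mulh K s))
    (fun f hf => by
      rw [hU] at hf
      exact res_mem (by omega) hf.1 hf.2)
    (fun f hf h6 => by
      obtain ⟨g, hg⟩ := dvd_iff_isRoot.2 (show f.IsRoot (X ^ s) from h6)
      rw [hU] at hf
      refine ⟨g, ?_, ?_⟩
      · rw [hU']
        have h7 := hf.1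
        have h8 : f ∈ Jc K s r (m + 1) := hf.2
        rw [hg] at h7 h8
        exact ⟨quot_mem hs h7, quot_mem_Jc h8⟩
      · rw [hg]
        rfl)
  have h4 : Module.finrank K (U'.map (mulh K s)) ≤ Module.finrank K U' :=
    Submodule.finrank_map_le _ _
  omega

end Pool.Agent.R36.PS
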