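import Pool.Agent.H932R3.Collide
import Pool.Agent.TH518.CW.Fin
import Pool.Agent.R36.PS.Restrict

/-! Collisions of a square number of fat points. -/

set_option autoImplicit false

namespace Pool.Agent.R36.PS

open Polynomial Pool.Agent.H932R2 Pool.Agent.H932R3

section Linear

variable {K : Type*} [Field K]

theorem exists_indep {V : Type*} [AddCommGroup V] [Module K V] (U W : Submodule K V)
    [Module.Finite K U] (n : ℕ) (h : Module.finrank K ↥(U ⊓ W) + n ≤ Module.finrank K U) :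
    ∃ v : Fin n → V, (∀ i, v i ∈ U) ∧ ∀ c : Fin n → K, ∑ i, c i • v i ∈ W → ∀ i, c i = 0 := by
  have h1 := LinearMap.finrank_range_add_finrank_ker (W.mkQ.domRestrict U)
  have h2 : Module.finrank K (LinearMap.ker (W.mkQ.domRestrict U)) ≤
      Module.finrank K ↥(U ⊓ W) := by
    rw [← Submodule.finrank_map_subtype_eq]
    have : Module.Finite K ↥(U ⊓ W) := Submodule.finiteDimensional_of_le inf_le_left
    refine Submodule.finrank_mono ?_
    rintro _ ⟨⟨u, hu⟩, hu0, rfl⟩
    have h3 : W.mkQ u = 0 := LinearMap.mem_ker.1 hu0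
    exact ⟨hu, (Submodule.Quotient.mk_eq_zero W).1 h3⟩
  have hn : n ≤ Module.finrank K (LinearMap.range (W.mkQ.domRestrict U)) := by omega
  let b := Module.finBasis K (LinearMap.range (W.mkQ.domRestrict U))
  have hex : ∀ i : Fin n, ∃ u : U, W.mkQ.domRestrict U u = b (Fin.castLE hn i) :=
    fun i => (b (Fin.castLE hn i)).2
  choose u hu using hex
  refine ⟨fun i => u i, fun i => (u i).2, fun c hc => ?_⟩
  have h4 : ∑ i, c i • b (Fin.castLE hn i) = 0 := by
    apply Subtype.ext
    have h5 : W.mkQ (∑ i, c i • (u i : V)) = 0 := (Submodule.Quotient.mk_eq_zero W).2 hc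
    rw [map_sum] at h5
    rw [Submodule.coe_sum, Submodule.coe_zero, ← h5]
    refine Finset.sum_congr rfl fun i _ => ?_
    rw [Submodule.coe_smul, ← hu i, map_smul]
    rfl
  have hli := b.linearIndependent.comp (Fin.castLE hn) (Fin.castLE_injective hn)
  exact fun i => Fintype.linearIndependent_iff.1 hli c h4 i

theorem finrank_le_of_indep {V : Type*} [AddCommGroup V] [Module K V] (U W : Submodule K V)
    [Module.Finite K U] {n : ℕ} (v : Fin n → V) (hv : ∀ i, v i ∈ U)
    (hc : ∀ c : Fin n → K, ∑ i, c i • v i ∈ W → ∀ i, c i = 0) :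
    Module.finrank K ↥(U ⊓ W) + n ≤ Module.finrank K U := by
  have hli : LinearIndependent K v := by
    rw [Fintype.linearIndependent_iff]
    intro c h0
    exact hc c (by rw [h0]; exact W.zero_mem)
  have h1 := finrank_span_eq_card hli
  rw [Fintype.card_fin] at h1
  have hS : Submodule.span K (Set.range v) ≤ U := by
    rw [Submodule.span_le]
    rintro _ ⟨i, rfl⟩
    exact hv i
  have : Module.Finite K ↥(U ⊓ W) := Submodule.finiteDimensional_of_le inf_le_left
  have : Module.Finite K ↥(Submodule.span K (Set.range v)) :=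
    Submodule.finiteDimensional_of_le hS
  have h2 := Submodule.finrank_sup_add_finrank_inf_eq (Submodule.span K (Set.range v)) (U ⊓ W)
  have h3 : Submodule.span K (Set.range v) ⊓ (U ⊓ W) = ⊥ := by
    rw [eq_bot_iff]
    rintro x ⟨hx, -, hxW⟩
    obtain ⟨c, rfl⟩ := (Submodule.mem_span_range_iff_exists_fun K).1 hx
    have h4 := hc c hxW
    rw [Submodule.mem_bot]
    exact Finset.sum_eq_zero fun i _ => by rw [h4 i, zero_smul]
  rw [h3, finrank_bot] at h2
  have h4 := Submodule.finrank_mono (sup_le hS (inf_le_left : U ⊓ W ≤ U))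
  omega

end Linear

universe u

variable {K : Type u} [Field K]

theorem bound {s : ℕ} (hs : 2 ≤ s) (j m : ℕ)
    (hK : ∀ q : ℕ, 0 < q → q ≤ s * (s * m + j) → (q : K) ≠ 0) :
    Module.finrank K ↥(Vd K (s * m + j) ⊓ Submodule.restrictScalars K (Jc K s (s ^ 2) m)) ≤
      (j + 2).choose 2 + m * (s * (j + 1) - s * (s - 1) / 2) := by
  induction m with
  | zero =>
    have h1 : Module.finrank K
        ↥(Vd K (s * 0 + j) ⊓ Submodule.restrictScalars K (Jc K s (s ^ 2) 0)) ≤
        Module.finrank K (Vd K (s * 0 + j)) := Submodule.finrank_mono inf_le_left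
    refine h1.trans ((finrank_Vd _).trans ?_)
    simp
  | succ m ih =>
    have e : s * (m + 1) + j = (s * m + j) + s := by ring
    have hK' : ∀ q : ℕ, 0 < q → q ≤ s * (s * m + j) → (q : K) ≠ 0 := by
      intro q h0 h1
      refine hK q h0 (h1.trans (Nat.mul_le_mul_left s ?_))
      rw [e]
      omega
    have h1 := ih hK'
    have h2 := step (K := K) (s := s) (r := s ^ 2) (m := m) (d := s * m + j) hs (by
      intro q h0 h1
      refine hK q h0 ?_
      rw [e]
      exact h1)
    rw [e]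
    have h3 : ∑ i ∈ Finset.range s, (s * m + j + s + 1 - i) + s * (s - 1) / 2 =
        s ^ 2 * (m + 1) + s * (j + 1) := by
      rw [← Finset.sum_range_id, ← Finset.sum_add_distrib]
      have h4 : ∀ i ∈ Finset.range s, s * m + j + s + 1 - i + i = s * m + j + s + 1 := by
        intro i hi
        have := Finset.mem_range.1 hi
        omega
      rw [Finset.sum_congr rfl h4, Finset.sum_const, Finset.card_range, smul_eq_mul]
      ring
    have h5 : (m + 1) * (s * (j + 1) - s * (s - 1) / 2) =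
        m * (s * (j + 1) - s * (s - 1) / 2) + (s * (j + 1) - s * (s - 1) / 2) := by ring
    rw [h5]
    omega

theorem card_Tfin_choose (d : ℕ) : (Tfin d).card = (d + 2).choose 2 := by
  have h4 := card_Tfin d
  have h5 : (d + 2).choose 2 * 2 = (d + 2) * (d + 1) := by
    rw [Nat.choose_two_right, Nat.div_mul_cancel (Nat.even_mul_pred_self _).two_dvd]
    rfl
  linarith

theorem finrank_Vd_eq (d : ℕ) : Module.finrank K (Vd K d) = (d + 2).choose 2 := by
  apply le_antisymm (finrank_Vd d)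
  have h1 : Function.Injective
      (LinearMap.codRestrict (Vd K d) (coordMap K (Tfin d)) (fun a => by
        rw [← mspan_eq, ← coe_Tfin]
        exact (mem_mspan_iff (Tfin d) _).2 ⟨a, rfl⟩)) := by
    intro a b hab
    exact coordMap_inj (Tfin d) (congrArg Subtype.val hab)
  have h2 := LinearMap.finrank_le_finrank_of_injective h1
  rw [Module.finrank_fin_fun, card_Tfin_choose] at h2
  exact h2

/-- the exponents of the curve `y = x ^ s` -/
def sa (K : Type u) [Field K] (s r : ℕ) : Fin r → K := fun j => if (j : ℕ) = s then 1 else 0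

theorem jet_sa {s r m : ℕ} (hsr : s < r) : jetIdeal m (1 : K) (sa K s r) = Jc K s r m := by
  unfold jetIdeal Jc cIdeal sa
  rw [rootPoly_const]
  have h : ∑ j : Fin r, (C (if (j : ℕ) = s then (1 : K) else 0) * X ^ (j : ℕ) : K[X]) = X ^ s := by
    rw [Finset.sum_eq_single (⟨s, hsr⟩ : Fin r)]
    · simp
    · intro j _ hj
      rw [if_neg, C_0, zero_mul]
      intro h
      exact hj (Fin.ext h)
    · intro h
      exact absurd (Finset.mem_univ _) h
  rw [h]

theorem open_at {r m : ℕ} {T : Set (ℕ × ℕ)} {N : ℕ} (c1 : K) (a1 : Fin r → K)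
    (h : RkI (jetIdeal m c1 a1) T N) :
    ∃ F : MvPolynomial (Fin (r + 1)) K, F ≠ 0 ∧
      ∀ (c : K) (a : Fin r → K), MvPolynomial.eval (Fin.cons c a : Fin (r + 1) → K) F ≠ 0 →
        RkI (jetIdeal m c a) T N := by
  classical
  let c : Unit → MvPolynomial (Fin (r + 1)) K := fun _ => MvPolynomial.X 0
  let γ : Unit → (MvPolynomial (Fin (r + 1)) K)[X] := fun _ =>
    ∑ j : Fin r, C (MvPolynomial.X j.succ) * X ^ (j : ℕ)
  have hev : ∀ (c0 : K) (a : Fin r → K),
      uIdeal r m (fun i => MvPolynomial.eval (Fin.cons c0 a : Fin (r + 1) → K) (c i))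
        (fun i => (γ i).map (MvPolynomial.eval (Fin.cons c0 a : Fin (r + 1) → K))) =
      jetIdeal m c0 a := by
    intro c0 a
    simp only [c, γ, MvPolynomial.eval_X, Fin.cons_zero, uIdeal, iInf_const, cIdeal, jetIdeal,
      rootPoly_const, Polynomial.map_sum, Polynomial.map_mul, Polynomial.map_C,
      Polynomial.map_pow, Polynomial.map_X, Fin.cons_succ]
  obtain ⟨F, hF, hF'⟩ := exists_open r m c γ T N (Fin.cons c1 a1 : Fin (r + 1) → K) (by
    rw [hev]
    exact h)
  exact ⟨F, hF, fun c0 a hP => by rw [← hev]; exact hF' _ hP⟩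

/-- The forms of degree `d` through the collision. -/
noncomputable def jforms {r : ℕ} (m : ℕ) (c : K) (a : Fin r → K) (d : ℕ) :
    Submodule K (MvPolynomial (Fin 3) K) :=
  MvPolynomial.homogeneousSubmodule (Fin 3) K d ⊓
    (Submodule.restrictScalars K (jetIdeal m c a)).comap (deh K).toLinearMap

theorem finrank_jforms {r : ℕ} (m : ℕ) (c : K) (a : Fin r → K) (d : ℕ) :
    Module.finrank K (jforms m c a d) =
      Module.finrank K ↥(Vd K d ⊓ Submodule.restrictScalars K (jetIdeal m c a)) := by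
  rw [← mspan_eq]
  exact finrank_forms _ _ fun F _ => Iff.rfl

/-- an upper bound at the special collision gives an upper bound for general collisions -/
theorem general {s m d b : ℕ} (hs : 2 ≤ s)
    (hb : Module.finrank K ↥(Vd K d ⊓ Submodule.restrictScalars K (Jc K s (s ^ 2) m)) ≤ b) :
    ∃ F : MvPolynomial (Fin (s ^ 2 + 1)) K, F ≠ 0 ∧ ∀ (c : K) (a : Fin (s ^ 2) → K),
      MvPolynomial.eval (Fin.cons c a : Fin (s ^ 2 + 1) → K) F ≠ 0 →
        RkI (jetIdeal m c a) (Tset d) ((d + 2).choose 2 - b) ∧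
          Module.finrank K (jforms m c a d) ≤ b := by
  have hsr : s < s ^ 2 := by nlinarith
  have h0 : Module.finrank K
      ↥(Vd K d ⊓ Submodule.restrictScalars K (jetIdeal m (1 : K) (sa K s (s ^ 2)))) ≤
        Module.finrank K (Vd K d) := Submodule.finrank_mono inf_le_left
  rw [jet_sa hsr, finrank_Vd_eq] at h0
  have hR : RkI (jetIdeal m (1 : K) (sa K s (s ^ 2))) (Tset d) ((d + 2).choose 2 - b) := by
    obtain ⟨v, hv, hc⟩ := exists_indep (Vd K d)
      (Submodule.restrictScalars K (jetIdeal m (1 : K) (sa K s (s ^ 2))))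
      ((d + 2).choose 2 - b) (by
        rw [jet_sa hsr, finrank_Vd_eq]
        omega)
    exact ⟨v, fun i => by rw [mspan_eq]; exact hv i, hc⟩
  obtain ⟨F, hF, hF'⟩ := open_at _ _ hR
  refine ⟨F, hF, fun c a hP => ?_⟩
  have h1 := hF' c a hP
  refine ⟨h1, ?_⟩
  obtain ⟨v, hv, hc⟩ := h1
  have h2 := finrank_le_of_indep (Vd K d) (Submodule.restrictScalars K (jetIdeal m c a)) v
    (fun i => by rw [← mspan_eq]; exact hv i) hc
  rw [finrank_jforms]
  rw [finrank_Vd_eq] at h2
  have h3 : Module.finrank K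
      ↥(Vd K d ⊓ Submodule.restrictScalars K (jetIdeal m c a)) ≤
        Module.finrank K (Vd K d) := Submodule.finrank_mono inf_le_left
  rw [finrank_Vd_eq] at h3
  omega

theorem two_tri (s : ℕ) (hs : 1 ≤ s) : 2 * (s * (s - 1) / 2) + s = s ^ 2 := by
  have h := Nat.div_mul_cancel (Nat.even_mul_pred_self s).two_dvd
  obtain ⟨t, rfl⟩ : ∃ t, s = t + 1 := ⟨s - 1, by omega⟩
  have e : t + 1 - 1 = t := rfl
  rw [e] at h ⊢
  nlinarith

/-- the count -/
theorem count {s j m : ℕ} (hs : 1 ≤ s) (hj : s ≤ 2 * j + 3) :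
    (j + 2).choose 2 + m * (s * (j + 1) - s * (s - 1) / 2) + s ^ 2 * (m + 1).choose 2 =
      (s * m + j + 2).choose 2 := by
  have hc : ∀ n : ℕ, (n + 1).choose 2 * 2 = (n + 1) * n := by
    intro n
    rw [Nat.choose_two_right, Nat.div_mul_cancel (Nat.even_mul_pred_self _).two_dvd]
    rfl
  have h1 := hc (j + 1)
  have h2 := hc m
  have h3 := hc (s * m + j + 1)
  have hT := two_tri s hs
  obtain ⟨T, hT'⟩ : ∃ T, T = s * (s - 1) / 2 := ⟨_, rfl⟩
  rw [← hT'] at hT ⊢
  have h4 : T ≤ s * (j + 1) := by nlinarith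
  obtain ⟨Y, hY⟩ := Nat.exists_eq_add_of_le h4
  rw [hY, Nat.add_sub_cancel_left]
  have h5 : 2 * ((j + 2).choose 2 + m * Y + s ^ 2 * (m + 1).choose 2) =
      2 * (s * m + j + 2).choose 2 := by
    have e1 : 2 * (j + 2).choose 2 = (j + 2) * (j + 1) := by linarith
    have e2 : 2 * (m + 1).choose 2 = (m + 1) * m := by linarith
    have e3 : 2 * (s * m + j + 2).choose 2 = (s * m + j + 2) * (s * m + j + 1) := by linarith
    have e4 : 2 * Y + s ^ 2 = 2 * (s * (j + 1)) + s := by omega
    have e5 : m * (2 * Y + s ^ 2) = m * (2 * (s * (j + 1)) + s) := by rw [e4]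
    calc 2 * ((j + 2).choose 2 + m * Y + s ^ 2 * (m + 1).choose 2)
        = 2 * (j + 2).choose 2 + m * (2 * Y) + s ^ 2 * (2 * (m + 1).choose 2) := by ring
      _ = (j + 2) * (j + 1) + m * (2 * Y) + s ^ 2 * ((m + 1) * m) := by rw [e1, e2]
      _ = (j + 2) * (j + 1) + m * (2 * Y + s ^ 2) + s ^ 2 * m ^ 2 := by ring
      _ = (j + 2) * (j + 1) + m * (2 * (s * (j + 1)) + s) + s ^ 2 * m ^ 2 := by rw [e5]
      _ = (s * m + j + 2) * (s * m + j + 1) := by ring
      _ = 2 * (s * m + j + 2).choose 2 := e3.symm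
  omega

theorem main {s : ℕ} (hs : 4 ≤ s) (m : ℕ)
    (hK : ∀ q : ℕ, 0 < q → q ≤ s ^ 2 * (m + 1) → (q : K) ≠ 0) :
    ∃ F : MvPolynomial (Fin (s ^ 2 + 1)) K, F ≠ 0 ∧ ∀ (c : K) (a : Fin (s ^ 2) → K),
      MvPolynomial.eval (Fin.cons c a : Fin (s ^ 2 + 1) → K) F ≠ 0 →
        (∀ d : ℕ, d ≤ s * m ∨ 2 * (s * m) + s ≤ 2 * d + 3 → JetDim (s ^ 2) m c a d) ∧
        ∀ j : ℕ, 2 * j + 3 ≤ s →
          Module.finrank K (jforms m c a (s * m + j)) ≤ (j + 2).choose 2 := by
  classical
  have hK' : ∀ j ≤ s, ∀ q : ℕ, 0 < q → q ≤ s * (s * m + j) → (q : K) ≠ 0 := by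
    intro j hj q h0 h1
    refine hK q h0 (h1.trans ?_)
    have : s * (s * m + j) ≤ s * (s * m + s) := Nat.mul_le_mul_left s (by omega)
    nlinarith
  obtain ⟨F0, hF0, hF0'⟩ := Pool.Agent.TH518.CW.coll_all (r := s ^ 2) (m := m)
    (by nlinarith) K
  obtain ⟨F1, hF1, hF1'⟩ := general (d := s * m + (s - 2) / 2) (by omega : 2 ≤ s)
    (bound (by omega : 2 ≤ s) ((s - 2) / 2) m (hK' _ (by omega)))
  have hG : ∀ j : ℕ, ∃ F : MvPolynomial (Fin (s ^ 2 + 1)) K, F ≠ 0 ∧
      ∀ (c : K) (a : Fin (s ^ 2) → K),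
        MvPolynomial.eval (Fin.cons c a : Fin (s ^ 2 + 1) → K) F ≠ 0 → 2 * j + 3 ≤ s →
          Module.finrank K (jforms m c a (s * m + j)) ≤ (j + 2).choose 2 := by
    intro j
    by_cases hj : 2 * j + 3 ≤ s
    · obtain ⟨F, hF, hF'⟩ := general (d := s * m + j) (by omega : 2 ≤ s)
        (bound (by omega : 2 ≤ s) j m (hK' _ (by omega)))
      refine ⟨F, hF, fun c a hP _ => (hF' c a hP).2.trans ?_⟩
      have hT := two_tri s (by omega)
      have h1 : s * (j + 1) ≤ s * (s - 1) / 2 := by nlinarith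
      rw [Nat.sub_eq_zero_of_le h1, mul_zero, add_zero]
    · exact ⟨1, one_ne_zero, fun _ _ _ h => absurd h hj⟩
  choose G hG0 hG' using hG
  refine ⟨F0 * F1 * ∏ j ∈ Finset.range s, G j,
    mul_ne_zero (mul_ne_zero hF0 hF1) (Finset.prod_ne_zero_iff.2 fun j _ => hG0 j),
    fun c a hP => ?_⟩
  rw [map_mul, map_mul, map_prod] at hP
  have g0 := left_ne_zero_of_mul (left_ne_zero_of_mul hP)
  have g1 := right_ne_zero_of_mul (left_ne_zero_of_mul hP)
  have g2 := right_ne_zero_of_mul hP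
  refine ⟨fun d hd => ?_, fun j hj => ?_⟩
  · rcases hd with hd | hd
    · refine hF0' c a g0 d (Or.inl ?_)
      have e : √((s ^ 2 : ℕ) : ℝ) = s := by
        rw [Nat.cast_pow, Real.sqrt_sq (Nat.cast_nonneg s)]
      rw [e]
      exact_mod_cast hd
    · have h1 := (hF1' c a g1).1
      have h2 := count (s := s) (j := (s - 2) / 2) (m := m) (by omega) (by omega)
      rw [← h2, Nat.add_sub_cancel_left] at h1
      exact jet_indep h1 d (by omega)
  · refine hG' j c a ?_ hj
    exact (Finset.prod_ne_zero_iff.1 g2) j (Finset.mem_range.2 (by omega))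

end Pool.Agent.R36.PS
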